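import Pool.Agent.H17.Cone.Stmts

set_option autoImplicit false

namespace Pool.Agent.H17.Cone

open MeasureTheory Filter Topology Module

theorem bas_thm : BASStmt := by
  intro a x hdelta f hf v hv
  have hfl : Function.Injective f.linear := f.linear_injective_iff.2 hf
  have hlin : LinearIndependent ℝ (fun i => f (a i) - v) := by
    rw [Fintype.linearIndependent_iff]
    intro c hc
    rw [Fin.sum_univ_three] at hc
    -- the vertices are affinely related to `a 0`
    have e1 : f (a 1) = f (a 0) + f.linear (a 1 - a 0) := by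
      have := f.linearMap_vsub (a 1) (a 0)
      simp only [vsub_eq_sub] at this
      rw [this]; abel
    have e2 : f (a 2) = f (a 0) + f.linear (a 2 - a 0) := by
      have := f.linearMap_vsub (a 2) (a 0)
      simp only [vsub_eq_sub] at this
      rw [this]; abel
    have hsum : c 0 + c 1 + c 2 = 0 := by
      by_contra hs
      apply hv
      refine ⟨a 0 + (c 1 / (c 0 + c 1 + c 2)) • (a 1 - a 0) +
        (c 2 / (c 0 + c 1 + c 2)) • (a 2 - a 0), ?_⟩
      have h3 : f (a 0 + (c 1 / (c 0 + c 1 + c 2)) • (a 1 - a 0) +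
          (c 2 / (c 0 + c 1 + c 2)) • (a 2 - a 0)) = f (a 0) +
          ((c 1 / (c 0 + c 1 + c 2)) • f.linear (a 1 - a 0) +
            (c 2 / (c 0 + c 1 + c 2)) • f.linear (a 2 - a 0)) := by
        have := f.linearMap_vsub (a 0 + (c 1 / (c 0 + c 1 + c 2)) • (a 1 - a 0) +
          (c 2 / (c 0 + c 1 + c 2)) • (a 2 - a 0)) (a 0)
        simp only [vsub_eq_sub] at this
        rw [← map_smul, ← map_smul, ← map_add]
        have h4 : a 0 + (c 1 / (c 0 + c 1 + c 2)) • (a 1 - a 0) +
          (c 2 / (c 0 + c 1 + c 2)) • (a 2 - a 0) - a 0 = (c 1 / (c 0 + c 1 + c 2)) • (a 1 - a 0) +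
          (c 2 / (c 0 + c 1 + c 2)) • (a 2 - a 0) := by abel
        rw [h4] at this
        rw [this]; abel
      rw [h3]
      have h5 : (c 0 + c 1 + c 2) • v = (c 0 + c 1 + c 2) • f (a 0) +
          (c 1 • f.linear (a 1 - a 0) + c 2 • f.linear (a 2 - a 0)) := by
        rw [e1, e2] at hc
        have : c 0 • (f (a 0) - v) + c 1 • (f (a 0) + f.linear (a 1 - a 0) - v) +
          c 2 • (f (a 0) + f.linear (a 2 - a 0) - v) = ((c 0 + c 1 + c 2) • f (a 0) +
          (c 1 • f.linear (a 1 - a 0) + c 2 • f.linear (a 2 - a 0))) - (c 0 + c 1 + c 2) • v := by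
          module
        rw [this, sub_eq_zero] at hc
        exact hc.symm
      have h6 : v = (c 0 + c 1 + c 2)⁻¹ • ((c 0 + c 1 + c 2) • v) := by
        rw [smul_smul, inv_mul_cancel₀ hs, one_smul]
      rw [h6, h5]
      rw [smul_add, smul_smul, inv_mul_cancel₀ hs, one_smul, smul_add, smul_smul, smul_smul]
      simp only [div_eq_inv_mul]
    have h7 : f.linear (c 1 • (a 1 - a 0) + c 2 • (a 2 - a 0)) = 0 := by
      rw [map_add, map_smul, map_smul]
      rw [e1, e2] at hc
      have : c 0 • (f (a 0) - v) + c 1 • (f (a 0) + f.linear (a 1 - a 0) - v) +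
          c 2 • (f (a 0) + f.linear (a 2 - a 0) - v) = (c 0 + c 1 + c 2) • (f (a 0) - v) +
          (c 1 • f.linear (a 1 - a 0) + c 2 • f.linear (a 2 - a 0)) := by module
      rw [this, hsum, zero_smul, zero_add] at hc
      exact hc
    have h8 : c 1 • (a 1 - a 0) + c 2 • (a 2 - a 0) = 0 := by
      apply hfl
      rw [h7, map_zero]
    have hx : ∀ i j, (x i).linear (a j - a 0) = x i (a j) - x i (a 0) := by
      intro i j
      have := (x i).linearMap_vsub (a j) (a 0)
      simp only [vsub_eq_sub] at this
      exact this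
    have h9 : ∀ i, c 1 * (x i (a 1) - x i (a 0)) + c 2 * (x i (a 2) - x i (a 0)) = 0 := by
      intro i
      have := congrArg (x i).linear h8
      rw [map_add, map_smul, map_smul, hx, hx, map_zero] at this
      simpa using this
    have c1 : c 1 = 0 := by
      have := h9 1
      simp only [hdelta] at this
      simpa using this
    have c2 : c 2 = 0 := by
      have := h9 2
      simp only [hdelta] at this
      simpa using this
    have c0 : c 0 = 0 := by linarith
    intro i
    fin_cases i
    · exact c0
    · exact c1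
    · exact c2
  refine ⟨basisOfLinearIndependentOfCardEqFinrank hlin (by simp), fun i => ?_⟩
  simp

end Pool.Agent.H17.Cone
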