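import Pool.Agent.H17.Cone.Stmts

set_option autoImplicit false

namespace Pool.Agent.H17.Cone

open MeasureTheory Filter Topology Module

theorem ratio_le_one (U : Set E3) (R : ℝ) : (volume (U ∩ Metric.ball (0 : E3) R)).toReal /
    (volume (Metric.ball (0 : E3) R)).toReal ≤ 1 := by
  apply div_le_one_of_le₀ _ ENNReal.toReal_nonneg
  exact ENNReal.toReal_mono (measure_ball_lt_top).ne (measure_mono Set.inter_subset_right)

theorem ratio_nonneg (U : Set E3) (R : ℝ) : 0 ≤ (volume (U ∩ Metric.ball (0 : E3) R)).toReal /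
    (volume (Metric.ball (0 : E3) R)).toReal :=
  div_nonneg ENNReal.toReal_nonneg ENNReal.toReal_nonneg

theorem bdd_thm : BDDStmt := by
  intro U
  unfold upperDensity
  refine limsup_le_of_le ?_ (Eventually.of_forall fun R => ratio_le_one U R)
  exact isCoboundedUnder_le_of_le atTop (fun R => ratio_nonneg U R)

theorem upperDensity_nonneg (U : Set E3) : 0 ≤ upperDensity U := by
  unfold upperDensity
  refine le_limsup_of_frequently_le (Frequently.of_forall fun R => ratio_nonneg U R) ?_
  exact ⟨1, by rw [eventually_map]; exact Eventually.of_forall fun R => ratio_le_one U R⟩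

theorem llt_thm : LLTStmt := by
  intro C
  have hb : BddAbove {d | ∃ X : Set E3, IsPacking X C ∧ d = upperDensity (⋃ u ∈ X, tr u C)} := by
    refine ⟨1, ?_⟩
    rintro d ⟨X, _, rfl⟩
    exact bdd_thm _
  unfold deltaL
  rcases ({d | ∃ g : Basis (Fin 3) ℝ E3, IsPacking (lat g) C ∧
    d = upperDensity (⋃ u ∈ lat g, tr u C)} : Set ℝ).eq_empty_or_nonempty with h | h
  · rw [h, Real.sSup_empty]
    refine le_trans (upperDensity_nonneg _) (le_csSup hb ⟨∅, ?_, rfl⟩)
    intro u hu
    exact absurd hu (Set.notMem_empty u)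
  · refine csSup_le_csSup hb h ?_
    rintro d ⟨g, hg, rfl⟩
    exact ⟨lat g, hg, rfl⟩

end Pool.Agent.H17.Cone
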