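import Pool.Agent.H17.Cone.Stmts

set_option autoImplicit false

namespace Pool.Agent.H17.Cone

open MeasureTheory Filter Topology Module

theorem cpt_thm : CPTStmt := by
  intro K f v hKc hK
  refine ⟨convex_convexHull ℝ _, ?_⟩
  rcases K.eq_empty_or_nonempty with rfl | hne
  · have : cone f v ∅ = {v} := by simp [cone]
    rw [this]
    exact isCompact_singleton
  have hfc : Continuous f := f.continuous_of_finiteDimensional
  have hfK : IsCompact (f '' K) := hK.image hfc
  have hfKc : Convex ℝ (f '' K) := hKc.affine_image f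
  have h1 : cone f v K = (fun q : ℝ × E3 => (1 - q.1) • v + q.1 • q.2) '' (Set.Icc 0 1 ×ˢ (f '' K)) := by
    unfold cone
    rw [Set.union_comm, Set.singleton_union, convexHull_insert (hne.image f), hfKc.convexHull_eq]
    ext z
    simp only [mem_convexJoin, Set.mem_singleton_iff, exists_eq_left, Set.mem_image, Set.mem_prod,
      Set.mem_Icc, Prod.exists]
    constructor
    · rintro ⟨y, ⟨k, hk, rfl⟩, a, b, ha, hb, hab, rfl⟩
      refine ⟨b, f k, ⟨⟨hb, by linarith⟩, k, hk, rfl⟩, ?_⟩
      rw [← hab, add_sub_cancel_right]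
    · rintro ⟨t, y, ⟨⟨h0, h1⟩, k, hk, rfl⟩, rfl⟩
      exact ⟨f k, ⟨k, hk, rfl⟩, 1 - t, t, by linarith, h0, by ring, rfl⟩
  rw [h1]
  refine (isCompact_Icc.prod hfK).image ?_
  fun_prop

end Pool.Agent.H17.Cone
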