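import Mathlib

/-!
# Lattice packings of cones over convex disks: definitions

The cone over a convex disk `K`, placed in a plane of space by an injective affine map, the upper
density, lattice packings and the number `δ_L`.
-/

set_option autoImplicit false

namespace Pool.Agent.H17.Cone

open MeasureTheory Filter Topology Module

/-- The Euclidean plane. -/
abbrev E2 : Type := EuclideanSpace ℝ (Fin 2)

/-- Euclidean space. -/
abbrev E3 : Type := EuclideanSpace ℝ (Fin 3)

/-- A convex disk: a compact convex subset of the plane with nonempty interior. -/
structure IsDisk (K : Set E2) : Prop where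
  convex : Convex ℝ K
  compact : IsCompact K
  interior_nonempty : (interior K).Nonempty

/-- The cone with apex `v` over the convex disk `K`, placed in a plane of space by the injective
affine map `f`: the convex hull of `f(K)` and `v`. -/
def cone (f : E2 →ᵃ[ℝ] E3) (v : E3) (K : Set E2) : Set E3 := convexHull ℝ (f '' K ∪ {v})

/-- The translate `u + C`. -/
def tr (u : E3) (C : Set E3) : Set E3 := (fun x => u + x) '' C

/-- The upper density of a subset of space. -/
noncomputable def upperDensity (U : Set E3) : ℝ :=
  limsup (fun R : ℝ => (volume (U ∩ Metric.ball (0 : E3) R)).toReal /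
    (volume (Metric.ball (0 : E3) R)).toReal) atTop

/-- The translates `u + C`, `u ∈ Λ`, have pairwise disjoint interiors. -/
def IsPacking (Λ C : Set E3) : Prop :=
  ∀ u ∈ Λ, ∀ u' ∈ Λ, u ≠ u' → Disjoint (interior (tr u C)) (interior (tr u' C))

/-- The lattice with basis `g`. -/
def lat (g : Basis (Fin 3) ℝ E3) : Set E3 := {x | ∃ n : Fin 3 → ℤ, x = ∑ i, (n i : ℝ) • g i}

/-- The lattice packing density of `C`: the supremum of the upper densities of the packings by the
translates of `C` by the vectors of a lattice. -/
noncomputable def deltaL (C : Set E3) : ℝ :=
  sSup {d | ∃ g : Basis (Fin 3) ℝ E3, IsPacking (lat g) C ∧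
    d = upperDensity (⋃ u ∈ lat g, tr u C)}

/-- The translative packing density of `C`: the supremum of the upper densities of the packings by
translates of `C`. -/
noncomputable def deltaT (C : Set E3) : ℝ :=
  sSup {d | ∃ X : Set E3, IsPacking X C ∧ d = upperDensity (⋃ u ∈ X, tr u C)}

end Pool.Agent.H17.Cone
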