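import Pool.Agent.H17.Cone.Core

/-!
# Lattice packings of cones over convex disks: auxiliary notions used in the proof
-/

set_option autoImplicit false

namespace Pool.Agent.H17.Cone

open MeasureTheory Filter Topology Module

/-- A triangle `a 0, a 1, a 2` inscribed in `K` with barycentric coordinates `x i`, such that
`K` lies in the hexagon `-b i ≤ x i ≤ 1` and touches the lines `x i = -b i` in `e i`. -/
structure Frame (K : Set E2) (a : Fin 3 → E2) (x : Fin 3 → (E2 →ᵃ[ℝ] ℝ)) (b : Fin 3 → ℝ)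
    (e : Fin 3 → E2) : Prop where
  mem : ∀ i, a i ∈ K
  delta : ∀ i j, x i (a j) = if i = j then 1 else 0
  sum : ∀ z, x 0 z + x 1 z + x 2 z = 1
  repr : ∀ z, x 0 z • a 0 + x 1 z • a 1 + x 2 z • a 2 = z
  nonneg : ∀ i, 0 ≤ b i
  low : ∀ i, ∀ z ∈ K, -b i ≤ x i z
  high : ∀ i, ∀ z ∈ K, x i z ≤ 1
  emem : ∀ i, e i ∈ K
  eval : ∀ i, x i (e i) = -b i

/-- The triangles inscribed in `K` have at most the area of the triangle of the frame. -/
def MaxArea (K : Set E2) (x : Fin 3 → (E2 →ᵃ[ℝ] ℝ)) : Prop :=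
  ∀ z : Fin 3 → E2, (∀ i, z i ∈ K) → |(Matrix.of fun i j => x j (z i)).det| ≤ 1

/-- A vector `u` with coordinates `y` (with respect to the vectors from the apex to the three
vertices of the base triangle) such that `C` and `u + C` are separated by one of the seven
linear functionals. -/
def Sep (b y : Fin 3 → ℝ) : Prop :=
  1 ≤ -(y 0 + y 1 + y 2) ∨ (∃ j, 1 + b j ≤ y j - (y 0 + y 1 + y 2)) ∨
    (∃ j, 1 + b j ≤ -y j - b j * (y 0 + y 1 + y 2))

/-- The conditions on the parameters of the lattice. -/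
structure Par (b t : Fin 3 → ℝ) (p : Fin 3 → Fin 3 → ℝ) : Prop where
  tpos : ∀ i, 0 < t i
  tsum : t 0 + t 1 + t 2 = 1
  row0 : p 0 1 + p 0 2 = 1 + b 0
  row1 : p 1 0 + p 1 2 = 1 + b 1
  row2 : p 2 0 + p 2 1 = 1 + b 2
  col0 : 1 + t 0 * b 0 ≤ p 1 0 + p 2 0
  col1 : 1 + t 1 * b 1 ≤ p 0 1 + p 2 1
  col2 : 1 + t 2 * b 2 ≤ p 0 2 + p 1 2
  off : ∀ i j, i ≠ j → t i ≤ p i j

/-- The matrix of the lattice. -/
def Ymat (b t : Fin 3 → ℝ) (p : Fin 3 → Fin 3 → ℝ) : Matrix (Fin 3) (Fin 3) ℝ :=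
  !![1 + b 0 - t 0, -p 0 1, -p 0 2; -p 1 0, 1 + b 1 - t 1, -p 1 2;
    -p 2 0, -p 2 1, 1 + b 2 - t 2]

end Pool.Agent.H17.Cone
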