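import Pool.Agent.H17.Cone.Stmts

set_option autoImplicit false

namespace Pool.Agent.H17.Cone

theorem inq_thm' : INQStmt := by
  intro b1 b2 b3 h3 h32 h21 h1 hc1 hc2
  set s := b1 + b2 with hs
  set d := b1 - b2 with hd
  have hd0 : 0 ≤ d := by rw [hd]; linarith
  have hb1 : b1 = (s + d) / 2 := by rw [hs, hd]; ring
  have hb2 : b2 = (s - d) / 2 := by rw [hs, hd]; ring
  rcases eq_or_lt_of_le (h3.trans (h32.trans h21)) with h0 | h0
  · left
    have e2 : b2 = 0 := by linarith
    have e3 : b3 = 0 := by linarith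
    have es : s = 0 := by rw [hs]; linarith
    have ed : d = 0 := by rw [hd]; linarith
    rw [e3, es, ed]
    constructor
    · norm_num
    · intro h
      linarith
  have hspos : 0 < s := by rw [hs]; linarith
  by_cases hA : 0 < 7 * (s + b3) + 27 * b3 ^ 2 + 15 * d ^ 2 - 30 * s * b3 - 8 * s ^ 2
  · left
    exact ⟨by linarith, fun _ => by linarith⟩
  push Not at hA
  right
  -- `s` is not small
  have hs1 : 622 / 1000 - 1 / 1000 ≤ s := by
    by_contra hlt
    push Not at hlt
    by_cases h7 : 30 * s ≤ 7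
    · nlinarith [mul_nonneg h3 (sub_nonneg.2 h7), sq_nonneg d, sq_nonneg b3]
    · push Not at h7
      nlinarith [sq_nonneg (54 * b3 - 30 * s + 7), sq_nonneg d]
  have hs2 : s ≤ 124 / 100 := by
    have h4 : b2 * (1 + b2) ≤ 1 := by nlinarith
    have h5 : b2 ≤ 62 / 100 := by
      by_contra h
      push Not at h
      nlinarith
    by_contra h
    push Not at h
    have h6 : (1 + b2) * s ≤ 1 + b2 + b2 ^ 2 := by rw [hs]; nlinarith
    have hb20 : 0 ≤ b2 := h3.trans h32
    nlinarith
  constructor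
  · rcases le_or_gt s 1 with hle | hgt
    · have hE : 0 < -26316900 * s ^ 2 + 30339900 * s - 3868225 := by nlinarith
      nlinarith [sq_nonneg (6750 * b3 + 1535 - 4320 * s), sq_nonneg d]
    · have hg : (b2 + b3) * (1 + b1) ≤ 1 := hc2
      have hE : 0 < -18154900 * s ^ 2 + 44370400 * s - 23305225 - 10323500 * d +
          19677500 * d ^ 2 + 4147000 * s * d := by
        nlinarith [sq_nonneg (d - 15 / 100), mul_nonneg (sub_nonneg.2 hgt.le) hd0,
          mul_nonneg (sub_nonneg.2 hgt.le) (sub_nonneg.2 hs2)]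
      have hg' : ((s - d) / 2 + b3) * (1 + (s + d) / 2) ≤ 1 := by
        rw [← hb1, ← hb2]; exact hg
      nlinarith [sq_nonneg (6750 * b3 + 2635 - 3770 * s + 550 * d)]
  · by_contra hoff
    push Not at hoff
    have hb2s : b2 < 125 / 1000 := by linarith
    have hb20 : 0 ≤ b2 := h3.trans h32
    have hd2 : d = s - 2 * b2 := by rw [hs, hd]; ring
    have hss : 30 * s * b3 ≤ 30 * s * b2 := by nlinarith
    have hpos : 0 < 7 * s ^ 2 + (7 - 90 * b2) * s + 60 * b2 ^ 2 := by
      nlinarith [sq_nonneg (14 * s + 7 - 90 * b2), sq_nonneg (s - b2), sq_nonneg (s - 1 / 3)]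
    rw [hd2] at hA
    nlinarith [sq_nonneg b3]

end Pool.Agent.H17.Cone
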