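import Pool.Agent.H17.Cone.Stmts

/-!
# Lattice packings of cones over convex disks: assembly
-/

set_option autoImplicit false

namespace Pool.Agent.H17.Cone

open MeasureTheory Filter Topology Module

theorem interior_tr (u : E3) (C : Set E3) : interior (tr u C) = tr u (interior C) := by
  have h := (Homeomorph.addLeft u).image_interior C
  simp only [tr]
  exact h.symm

theorem tr_tr (u u' : E3) (C : Set E3) : tr u (tr u' C) = tr (u + u') C := by
  simp only [tr, Set.image_image, add_assoc]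

theorem disjoint_tr {u : E3} {A B : Set E3} (h : Disjoint A B) : Disjoint (tr u A) (tr u B) := by
  simp only [tr]
  exact (Set.disjoint_image_iff (add_right_injective u)).2 h

/-- Two translates whose difference is separating have disjoint interiors. -/
theorem disj_of (hSPB : SPBStmt) {K : Set E2} {a : Fin 3 → E2} {x : Fin 3 → (E2 →ᵃ[ℝ] ℝ)}
    {b : Fin 3 → ℝ} {e : Fin 3 → E2} (hF : Frame K a x b e) {f : E2 →ᵃ[ℝ] E3} {v : E3}
    {w : Basis (Fin 3) ℝ E3} (hw : ∀ i, w i = f (a i) - v) (u u' : E3)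
    (h : Sep b (fun j => w.repr (u' - u) j)) :
    Disjoint (interior (tr u (cone f v K))) (interior (tr u' (cone f v K))) := by
  have h1 := hSPB K a x b e hF f v w hw (u' - u) h
  have h2 : tr u' (cone f v K) = tr u (tr (u' - u) (cone f v K)) := by
    rw [tr_tr]; congr 1; abel
  rw [h2, interior_tr u, interior_tr u]
  exact disjoint_tr h1

/-- A dense lattice packing. -/
theorem key (hPAR : PARStmt) (hPCK : PCKStmt) (hORD : ORDStmt) (hREG : REGStmt)
    (hTRG : TRGStmt) (hBAS : BASStmt) (hSPB : SPBStmt) (hCPT : CPTStmt) (hVOL : VOLStmt)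
    (hCOV : COVStmt) (hDEN : DENStmt) (K : Set E2) (hK : IsDisk K) (f : E2 →ᵃ[ℝ] E3)
    (hf : Function.Injective f) (v : E3) (hv : v ∉ Set.range f) :
    ∃ g : Basis (Fin 3) ℝ E3, IsPacking (lat g) (cone f v K) ∧
      18 / 49 ≤ upperDensity (⋃ u ∈ lat g, tr u (cone f v K)) ∧
      ((¬ ∃ a b c : E2, K = convexHull ℝ {a, b, c}) →
        18 / 49 < upperDensity (⋃ u ∈ lat g, tr u (cone f v K))) := by
  obtain ⟨a, x, b, e, hF, hMA, h21, h10⟩ := hORD K hK
  obtain ⟨r1, r2, r3⟩ := hREG K a x b e hF hMA h21 h10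
  obtain ⟨t, p, hP, hpos, hle, hlt⟩ := hPAR b (hF.nonneg 2) h21 h10 r1 r2 r3
  obtain ⟨w, hw⟩ := hBAS a x hF.delta f hf v hv
  obtain ⟨g, hg, hvol, hwpos⟩ := hCOV w (Ymat b t p) (by intro h; rw [h] at hpos; linarith)
  have hb0 := hF.nonneg 0
  have hb1 := hF.nonneg 1
  have hb2 := hF.nonneg 2
  have hcoord : ∀ k : Fin 3 → ℤ, ∀ j, w.repr (∑ i, (k i : ℝ) • g i) j =
      ∑ i, (k i : ℝ) * Ymat b t p i j := by
    intro k j
    rw [map_sum, Finsupp.finsetSum_apply]
    refine Finset.sum_congr rfl fun i _ => ?_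
    rw [map_smul, Finsupp.smul_apply, smul_eq_mul, hg i, map_sum, Finsupp.finsetSum_apply]
    congr 1
    rw [Finset.sum_eq_single j]
    · rw [map_smul, Finsupp.smul_apply, w.repr_self, Finsupp.single_eq_same, smul_eq_mul, mul_one]
    · intro l _ hl
      rw [map_smul, Finsupp.smul_apply, w.repr_self, Finsupp.single_eq_of_ne (Ne.symm hl),
        smul_eq_mul, mul_zero]
    · intro h; exact absurd (Finset.mem_univ j) h
  have hpack : IsPacking (lat g) (cone f v K) := by
    rintro u ⟨n, rfl⟩ u' ⟨m, rfl⟩ hne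
    have hk : (fun i => m i - n i) ≠ 0 := by
      intro h
      apply hne
      refine Finset.sum_congr rfl fun i _ => ?_
      have := congrFun h i
      simp only [Pi.zero_apply] at this
      have h' : m i = n i := by omega
      rw [h']
    have hdiff : (∑ i, (m i : ℝ) • g i) - ∑ i, (n i : ℝ) • g i =
        ∑ i, (((fun i => m i - n i) i : ℤ) : ℝ) • g i := by
      rw [← Finset.sum_sub_distrib]
      refine Finset.sum_congr rfl fun i _ => ?_
      push_cast
      rw [sub_smul]
    rcases hPCK b t p hF.nonneg hP (fun i => m i - n i) hk with h | h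
    · apply disj_of hSPB hF hw
      rw [hdiff]
      have : (fun j => w.repr (∑ i, (((fun i => m i - n i) i : ℤ) : ℝ) • g i) j) =
          fun j => ∑ i, (((fun i => m i - n i) i : ℤ) : ℝ) * Ymat b t p i j := by
        funext j; exact hcoord _ j
      rw [this]
      exact h
    · rw [disjoint_comm]
      apply disj_of hSPB hF hw
      have : (fun j => w.repr ((∑ i, (n i : ℝ) • g i) - ∑ i, (m i : ℝ) • g i) j) =
          fun j => -∑ i, (((fun i => m i - n i) i : ℤ) : ℝ) * Ymat b t p i j := by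
        funext j
        rw [← hcoord, ← hdiff, ← Finsupp.neg_apply, ← map_neg, neg_sub]
      rw [this]
      exact h
  obtain ⟨hCc, hCk⟩ := hCPT K f v hK.convex hK.compact
  have hd := hDEN g (cone f v K) hCc hCk hpack
  have hV := hVOL K a x b e hK.convex hK.compact hF f v w hw
  have habs : |(Ymat b t p).det| = -(Ymat b t p).det := abs_of_neg (by linarith)
  rw [hvol, habs] at hd
  set V := (volume (parallelepiped w)).toReal with hVdef
  set D := -(Ymat b t p).det with hD
  have hDV : 0 < D * V := mul_pos hpos hwpos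
  refine ⟨g, hpack, le_trans ?_ hd, fun hnt => lt_of_lt_of_le ?_ hd⟩
  · rw [le_div_iff₀ hDV]
    nlinarith [mul_le_mul_of_nonneg_right hle hwpos.le]
  · have hb : 0 < b 0 := by
      rcases hb0.lt_or_eq with h | h
      · exact h
      · exfalso
        apply hnt
        refine ⟨a 0, a 1, a 2, hTRG K a x b e hK.convex hF ?_⟩
        intro i
        fin_cases i
        · exact h.symm
        · show b 1 = 0
          linarith
        · show b 2 = 0
          linarith
    rw [lt_div_iff₀ hDV]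
    nlinarith [mul_lt_mul_of_pos_right (hlt hb) hwpos]

theorem main_thm (hPAR : PARStmt) (hPCK : PCKStmt) (hORD : ORDStmt) (hREG : REGStmt)
    (hTRG : TRGStmt) (hBAS : BASStmt) (hSPB : SPBStmt) (hCPT : CPTStmt) (hVOL : VOLStmt)
    (hCOV : COVStmt) (hDEN : DENStmt) (hBDD : BDDStmt) (hLLT : LLTStmt) : MAINStmt := by
  have hbdd : ∀ C : Set E3, BddAbove {d | ∃ g : Basis (Fin 3) ℝ E3, IsPacking (lat g) C ∧
      d = upperDensity (⋃ u ∈ lat g, tr u C)} := by
    intro C
    refine ⟨1, ?_⟩
    rintro d ⟨g, _, rfl⟩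
    exact hBDD _
  constructor
  · intro K hK f hf v hv
    obtain ⟨g, h1, h2, _⟩ := key hPAR hPCK hORD hREG hTRG hBAS hSPB hCPT hVOL hCOV hDEN K hK f hf
      v hv
    exact ⟨le_trans h2 (le_csSup (hbdd _) ⟨g, h1, rfl⟩), hLLT _⟩
  · intro K hK hnt f hf v hv
    obtain ⟨g, h1, _, h3⟩ := key hPAR hPCK hORD hREG hTRG hBAS hSPB hCPT hVOL hCOV hDEN K hK f hf
      v hv
    exact lt_of_lt_of_le (h3 hnt) (le_csSup (hbdd _) ⟨g, h1, rfl⟩)

end Pool.Agent.H17.Cone
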