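import Pool.Agent.H17.Cone.Defs

/-!
# Lattice packings of cones over convex disks: statements of the modules
-/

set_option autoImplicit false

namespace Pool.Agent.H17.Cone

open MeasureTheory Filter Topology Module

/-- INQ: the inequality between real numbers. -/
def INQStmt : Prop :=
  ∀ b1 b2 b3 : ℝ, 0 ≤ b3 → b3 ≤ b2 → b2 ≤ b1 → b1 ≤ 1 → b1 * (1 + b2) ≤ 1 →
    (b2 + b3) * (1 + b1) ≤ 1 →
    (30 * (b1 + b2) * b3 + 8 * (b1 + b2) ^ 2 ≤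
        7 * (b1 + b2 + b3) + 27 * b3 ^ 2 + 15 * (b1 - b2) ^ 2 ∧
      (0 < b1 → 30 * (b1 + b2) * b3 + 8 * (b1 + b2) ^ 2 <
        7 * (b1 + b2 + b3) + 27 * b3 ^ 2 + 15 * (b1 - b2) ^ 2)) ∨
    (112 + 4320 * (b1 + b2) * b3 + 567 * (b1 + b2) ^ 2 <
        1265 * (b1 + b2) + 1535 * b3 + 3375 * b3 ^ 2 + 1755 * (b1 - b2) ^ 2 ∧
      4 / 10 * b1 ≤ 2 / 10 + 16 / 10 * b2 + b3)

/-- PAR: existence of the parameters. -/
def PARStmt : Prop :=
  ∀ b : Fin 3 → ℝ, 0 ≤ b 2 → b 2 ≤ b 1 → b 1 ≤ b 0 → b 0 ≤ 1 → b 0 * (1 + b 1) ≤ 1 →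
    (b 1 + b 2) * (1 + b 0) ≤ 1 →
    ∃ (t : Fin 3 → ℝ) (p : Fin 3 → Fin 3 → ℝ), Par b t p ∧ 0 < -(Ymat b t p).det ∧
      -(Ymat b t p).det ≤ 49 / 108 * (1 + b 0 + b 1 + b 2) ∧
      (0 < b 0 → -(Ymat b t p).det < 49 / 108 * (1 + b 0 + b 1 + b 2))

/-- PCK: the lattice is admissible. -/
def PCKStmt : Prop :=
  ∀ (b t : Fin 3 → ℝ) (p : Fin 3 → Fin 3 → ℝ), (∀ i, 0 ≤ b i) → Par b t p →
    ∀ n : Fin 3 → ℤ, n ≠ 0 →
      Sep b (fun j => ∑ i, (n i : ℝ) * Ymat b t p i j) ∨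
        Sep b (fun j => -∑ i, (n i : ℝ) * Ymat b t p i j)

/-- MAX: a triangle of maximal area inscribed in a convex disk. -/
def MAXStmt : Prop :=
  ∀ K : Set E2, IsDisk K → ∃ (a : Fin 3 → E2) (x : Fin 3 → (E2 →ᵃ[ℝ] ℝ)),
    (∀ i, a i ∈ K) ∧ (∀ i j, x i (a j) = if i = j then 1 else 0) ∧
    (∀ z, x 0 z + x 1 z + x 2 z = 1) ∧
    (∀ z, x 0 z • a 0 + x 1 z • a 1 + x 2 z • a 2 = z) ∧ MaxArea K x

/-- FRM: the frame of a triangle of maximal area. -/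
def FRMStmt : Prop :=
  ∀ K : Set E2, IsDisk K → ∃ (a : Fin 3 → E2) (x : Fin 3 → (E2 →ᵃ[ℝ] ℝ)) (b : Fin 3 → ℝ)
    (e : Fin 3 → E2), Frame K a x b e ∧ MaxArea K x

/-- ORD: the numbers `b i` may be assumed to be ordered. -/
def ORDStmt : Prop :=
  ∀ K : Set E2, IsDisk K → ∃ (a : Fin 3 → E2) (x : Fin 3 → (E2 →ᵃ[ℝ] ℝ)) (b : Fin 3 → ℝ)
    (e : Fin 3 → E2), Frame K a x b e ∧ MaxArea K x ∧ b 2 ≤ b 1 ∧ b 1 ≤ b 0

/-- TRI: three points on the lines `x i = -b i` span a small triangle only if the `b i` are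
small. -/
def TRIStmt : Prop :=
  ∀ b1 b2 b3 p q r : ℝ, 0 ≤ b3 → b3 ≤ b2 → b2 ≤ b1 → b1 ≤ p → p ≤ 1 → b2 ≤ q → q ≤ 1 →
    b3 ≤ r → r ≤ 1 →
    (!![-b1, p, 1 + b1 - p; 1 + b2 - q, -b2, q; r, 1 + b3 - r, -b3] :
      Matrix (Fin 3) (Fin 3) ℝ).det ≤ 1 → (b2 + b3) * (1 + b1) ≤ 1

/-- REG: the inequalities between the `b i`. -/
def REGStmt : Prop :=
  ∀ (K : Set E2) (a : Fin 3 → E2) (x : Fin 3 → (E2 →ᵃ[ℝ] ℝ)) (b : Fin 3 → ℝ) (e : Fin 3 → E2),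
    Frame K a x b e → MaxArea K x → b 2 ≤ b 1 → b 1 ≤ b 0 →
    b 0 ≤ 1 ∧ b 0 * (1 + b 1) ≤ 1 ∧ (b 1 + b 2) * (1 + b 0) ≤ 1

/-- TRG: if all `b i` vanish, the disk is a triangle. -/
def TRGStmt : Prop :=
  ∀ (K : Set E2) (a : Fin 3 → E2) (x : Fin 3 → (E2 →ᵃ[ℝ] ℝ)) (b : Fin 3 → ℝ) (e : Fin 3 → E2),
    Convex ℝ K → Frame K a x b e → (∀ i, b i = 0) → K = convexHull ℝ {a 0, a 1, a 2}

/-- BAS: the vectors from the apex to the vertices of the base triangle form a basis. -/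
def BASStmt : Prop :=
  ∀ (a : Fin 3 → E2) (x : Fin 3 → (E2 →ᵃ[ℝ] ℝ)), (∀ i j, x i (a j) = if i = j then 1 else 0) →
    ∀ (f : E2 →ᵃ[ℝ] E3), Function.Injective f → ∀ v : E3, v ∉ Set.range f →
      ∃ w : Basis (Fin 3) ℝ E3, ∀ i, w i = f (a i) - v

/-- SPB: separation. -/
def SPBStmt : Prop :=
  ∀ (K : Set E2) (a : Fin 3 → E2) (x : Fin 3 → (E2 →ᵃ[ℝ] ℝ)) (b : Fin 3 → ℝ) (e : Fin 3 → E2),
    Frame K a x b e → ∀ (f : E2 →ᵃ[ℝ] E3) (v : E3) (w : Basis (Fin 3) ℝ E3),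
    (∀ i, w i = f (a i) - v) → ∀ u : E3, Sep b (fun j => w.repr u j) →
    Disjoint (interior (cone f v K)) (interior (tr u (cone f v K)))

/-- CPT: the cone is convex and compact. -/
def CPTStmt : Prop :=
  ∀ (K : Set E2) (f : E2 →ᵃ[ℝ] E3) (v : E3), Convex ℝ K → IsCompact K →
    Convex ℝ (cone f v K) ∧ IsCompact (cone f v K)

/-- SIM: the volume of the standard simplex (in coordinates with respect to any basis). -/
def SIMStmt : Prop :=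
  ∀ w : Basis (Fin 3) ℝ E3,
    (volume {u : E3 | (∀ i, 0 ≤ w.repr u i) ∧ w.repr u 0 + w.repr u 1 + w.repr u 2 ≤ 1}).toReal =
      1 / 6 * (volume (parallelepiped w)).toReal

/-- VOL: lower bound for the volume of the cone. -/
def VOLStmt : Prop :=
  ∀ (K : Set E2) (a : Fin 3 → E2) (x : Fin 3 → (E2 →ᵃ[ℝ] ℝ)) (b : Fin 3 → ℝ) (e : Fin 3 → E2),
    Convex ℝ K → IsCompact K → Frame K a x b e →
    ∀ (f : E2 →ᵃ[ℝ] E3) (v : E3) (w : Basis (Fin 3) ℝ E3), (∀ i, w i = f (a i) - v) →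
    (1 + b 0 + b 1 + b 2) / 6 * (volume (parallelepiped w)).toReal ≤
      (volume (cone f v K)).toReal

/-- COV: determinants of lattices. -/
def COVStmt : Prop :=
  ∀ (w : Basis (Fin 3) ℝ E3) (Y : Matrix (Fin 3) (Fin 3) ℝ), Y.det ≠ 0 →
    ∃ g : Basis (Fin 3) ℝ E3, (∀ i, g i = ∑ j, Y i j • w j) ∧
      (volume (parallelepiped g)).toReal = |Y.det| * (volume (parallelepiped w)).toReal ∧
      0 < (volume (parallelepiped w)).toReal

/-- DEN: the density of a lattice packing. -/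
def DENStmt : Prop :=
  ∀ (g : Basis (Fin 3) ℝ E3) (C : Set E3), Convex ℝ C → IsCompact C → IsPacking (lat g) C →
    (volume C).toReal / (volume (parallelepiped g)).toReal ≤
      upperDensity (⋃ u ∈ lat g, tr u C)

/-- BDD: densities are at most one. -/
def BDDStmt : Prop := ∀ U : Set E3, upperDensity U ≤ 1

/-- LLT: the lattice packing density is at most the translative packing density. -/
def LLTStmt : Prop := ∀ C : Set E3, deltaL C ≤ deltaT C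

/-- The main result: for every convex disk `K` the cone over `K` has lattice packings of density
arbitrarily close to (at least) `18/49`, and strictly more than `18/49` if `K` is not a triangle;
the same holds for packings by translates. -/
def MAINStmt : Prop :=
  (∀ K : Set E2, IsDisk K → ∀ (f : E2 →ᵃ[ℝ] E3), Function.Injective f →
    ∀ v : E3, v ∉ Set.range f →
      18 / 49 ≤ deltaL (cone f v K) ∧ deltaL (cone f v K) ≤ deltaT (cone f v K)) ∧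
  (∀ K : Set E2, IsDisk K → (¬ ∃ a b c : E2, K = convexHull ℝ {a, b, c}) →
    ∀ (f : E2 →ᵃ[ℝ] E3), Function.Injective f → ∀ v : E3, v ∉ Set.range f →
      18 / 49 < deltaL (cone f v K))

end Pool.Agent.H17.Cone
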