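import Pool.Agent.H17.Cone.Stmts

set_option autoImplicit false

namespace Pool.Agent.H17.Cone

theorem trg_thm' : TRGStmt := by
  intro K a x b e hK hF hb
  apply Set.Subset.antisymm
  · intro z hz
    have h0 : ∀ i, 0 ≤ x i z := by
      intro i
      have := hF.low i z hz
      rw [hb i] at this
      linarith
    have hr := hF.repr z
    rw [← hr]
    have hc := convex_convexHull ℝ ({a 0, a 1, a 2} : Set E2)
    have m0 : a 0 ∈ convexHull ℝ ({a 0, a 1, a 2} : Set E2) := subset_convexHull ℝ _ (by simp)
    have m1 : a 1 ∈ convexHull ℝ ({a 0, a 1, a 2} : Set E2) := subset_convexHull ℝ _ (by simp)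
    have m2 : a 2 ∈ convexHull ℝ ({a 0, a 1, a 2} : Set E2) := subset_convexHull ℝ _ (by simp)
    have := hc.sum_mem (t := (Finset.univ : Finset (Fin 3))) (w := fun i => x i z) (z := a)
      (fun i _ => h0 i) (by rw [Fin.sum_univ_three]; exact hF.sum z) (by
        intro i _
        fin_cases i
        · exact m0
        · exact m1
        · exact m2)
    rw [Fin.sum_univ_three] at this
    exact this
  · apply convexHull_min _ hK
    intro z hz
    simp only [Set.mem_insert_iff, Set.mem_singleton_iff] at hz
    rcases hz with rfl | rfl | rfl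
    · exact hF.mem 0
    · exact hF.mem 1
    · exact hF.mem 2

end Pool.Agent.H17.Cone
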